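import Pool.Agent.H230R3.MonoEx

set_option autoImplicit false
open Set Metric Filter Topology

namespace Pool.Agent.Results.MP_597c46_an.NonDomain

open Pool.Agent.H230R3

/-- For every `n ≥ 2` there is a nonempty convex set `C ⊆ ℝⁿ` which is neither the domain nor the
range of any maximally monotone operator on `ℝⁿ`, and neither the domain nor the range of the
subdifferential of any proper lower semicontinuous convex function on `ℝⁿ`. -/
theorem result (n : ℕ) (hn : 2 ≤ n) :
    ∃ C : Set (EuclideanSpace ℝ (Fin n)), C.Nonempty ∧ Convex ℝ C ∧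
      (∀ A : EuclideanSpace ℝ (Fin n) → Set (EuclideanSpace ℝ (Fin n)),
        IsMaximallyMonotone A → domOp A ≠ C ∧ ranOp A ≠ C) ∧
      (∀ f : EuclideanSpace ℝ (Fin n) → EReal,
        IsProperLscConvex f → domOp (subdiff f) ≠ C ∧ ranOp (subdiff f) ≠ C) := by
  let C : Set (EuclideanSpace ℝ (Fin n)) :=
    {x | ‖x‖ < 1 ∨ (‖x‖ = 1 ∧ Irrational (x ⟨0, by omega⟩))}
  have hsub : C ⊆ closedBall 0 1 := by
    rintro x (h | ⟨h, -⟩)
    · simpa using h.le
    · simpa using h.le
  have hball : ball (0 : EuclideanSpace ℝ (Fin n)) 1 ⊆ C := fun x hx => Or.inl (by simpa using hx)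
  have hnot : ¬ IsSigmaCompact C := by
    refine not_sigmaCompact_of_sphere hn C fun x hx => ?_
    constructor
    · rintro (h | ⟨-, h⟩)
      · exact absurd hx h.ne
      · exact h
    · exact fun h => Or.inr ⟨hx, h⟩
  refine ⟨C, ⟨0, Or.inl (by simp)⟩, ?_, fun A hA => ⟨fun h => ?_, fun h => ?_⟩,
    fun f hf => ⟨fun h => ?_, fun h => ?_⟩⟩
  · rw [convex_iff_pairwise_pos]
    intro x hx y hy hxy a b ha hb hab
    apply hball
    rw [← interior_closedBall (0 : EuclideanSpace ℝ (Fin n)) one_ne_zero]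
    exact strictConvex_closedBall ℝ (0 : EuclideanSpace ℝ (Fin n)) 1 (hsub hx) (hsub hy) hxy ha hb hab
  · exact hnot (h ▸ isSigmaCompact_dom_of_closed_graph hA.isClosed_graph)
  · exact hnot (h ▸ isSigmaCompact_ran_of_closed_graph hA.isClosed_graph)
  · exact hnot (h ▸ isSigmaCompact_dom_of_closed_graph (isClosed_graph_subdiff hf))
  · exact hnot (h ▸ isSigmaCompact_ran_of_closed_graph (isClosed_graph_subdiff hf))

end Pool.Agent.Results.MP_597c46_an.NonDomain
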